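import Pool.Agent.N193.PS.Near
import Pool.Agent.N213.GF.I

/-!
# Weighted level of distribution beyond one half for the residues near the values of functions of non-integral index

Divisor-bounded weights, heights which depend on the moduli.

From Mathlib: `ContDiffAt ℝ ⊤`: infinitely differentiable at a point; `iteratedDeriv m f`: the derivative of order `m`;
`⌊y⌋₊`: the integer part of `y`, and `0` for `y < 0`; `z.toNat`: the integer `z` if it is not negative.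

Method: the characteristic function of the integer part of `f n` is small at all frequencies which are not close to
integers (van der Corput differencing and the inequality of Kusmin and Landau on dyadic blocks for all orders of
differencing, a discrete Fejer kernel for the passage to integer parts), and the values are not concentrated on short
intervals. The passage from such exponential sums to the level of distribution is from the starting files
(`Pool.Agent.TH872`), in a generic form from `Pool.Agent.N625.DY` (helper625), and with divisor-bounded weights from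
`Pool.Agent.N213.GF` (helper213).
-/

set_option autoImplicit false

namespace Pool.Agent.Results.MP_188a10_nt.NonIntegralOrderResidues

open Finset Filter

/-- `f` is smoothly varying of index `c`: it is infinitely differentiable and positive for large arguments, and
`t ^ m f⁽ᵐ⁾(t) / f(t) → c (c - 1) ... (c - m + 1)` for every `m`. -/
def SmoothlyVarying (c : ℝ) (f : ℝ → ℝ) : Prop :=
  (∃ t₀ : ℝ, ∀ t > t₀, ContDiffAt ℝ ((⊤ : ℕ∞) : WithTop ℕ∞) f t ∧ 0 < f t) ∧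
  ∀ m : ℕ, Tendsto (fun t => t ^ m * iteratedDeriv m f t / f t) atTop (nhds (∏ i ∈ range m, (c - i)))

/-- `E(x; d, r) = ψ(x; d, r) - x / φ(d)`, where `ψ(x; d, r)` is the sum of `Λ(n)` over the `n ≤ x` with
`n ≡ r (mod d)`. -/
noncomputable def E (x d r : ℕ) : ℝ :=
  ∑ n ∈ (Icc 1 x).filter (fun n => n ≡ r [MOD d]), ArithmeticFunction.vonMangoldt n - (x : ℝ) / Nat.totient d

/-- The sum of `λ(d) E(x(d); d, r)` over the `d ≤ Q` coprime to `r`. -/
noncomputable def weighted (lam : ℕ → ℝ) (x : ℕ → ℕ) (Q r : ℕ) : ℝ :=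
  ∑ d ∈ (Icc 1 Q).filter (fun d => r.Coprime d), lam d * E (x d) d r

/-- With `Q = N ^ (1 - ε)`: the sum of `λ(d) E(y; d, r)` over the `d ≤ Q` coprime to `r` is at most `N / (log N) ^ U` in
absolute value for all `y ≤ B N`, and so is the sum of `λ(d) E(x(d); d, r)`. -/
def Level (B U N : ℕ) (ε : ℝ) (lam : ℕ → ℝ) (x : ℕ → ℕ) (r : ℕ) : Prop :=
  (∀ y ≤ B * N, |weighted lam (fun _ => y) ⌊(N : ℝ) ^ (1 - ε)⌋₊ r| ≤ N / Real.log N ^ U) ∧
  |weighted lam x ⌊(N : ℝ) ^ (1 - ε)⌋₊ r| ≤ N / Real.log N ^ U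

open Pool.Agent.N193.PS

lemma weighted_cut (lam : ℕ → ℝ) (x : ℕ → ℕ) (Q Q' r : ℕ) (h : Q ≤ Q') :
    weighted lam x Q r = ∑ d ∈ (Icc 1 Q').filter (fun d => r.Coprime d), (if d ≤ Q then lam d else 0) *
      Pool.Agent.N625.DY.Err (x d) d r := by
  unfold weighted
  rw [← sum_filter_add_sum_filter_not ((Icc 1 Q').filter (fun d => r.Coprime d)) (fun d => d ≤ Q)]
  have h1 : ∑ d ∈ ((Icc 1 Q').filter (fun d => r.Coprime d)).filter (fun d => ¬ d ≤ Q), (if d ≤ Q then lam d else 0) *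
      Pool.Agent.N625.DY.Err (x d) d r = 0 := by
    apply sum_eq_zero
    intro d hd
    rw [mem_filter] at hd
    rw [if_neg hd.2, zero_mul]
  rw [h1, add_zero]
  have h2 : ((Icc 1 Q').filter (fun d => r.Coprime d)).filter (fun d => d ≤ Q) = (Icc 1 Q).filter (fun d => r.Coprime d) := by
    ext d
    simp only [mem_filter, mem_Icc]
    constructor
    · rintro ⟨⟨⟨h3, _⟩, h4⟩, h5⟩
      exact ⟨⟨h3, h5⟩, h4⟩
    · rintro ⟨⟨h3, h4⟩, h5⟩
      exact ⟨⟨⟨h3, h4.trans h⟩, h5⟩, h4⟩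
  rw [h2]
  apply sum_congr rfl
  intro d hd
  rw [mem_filter, mem_Icc] at hd
  rw [if_pos hd.1.2]
  rfl

open Classical in
/-- **(1)** Let `f` be smoothly varying of an index `c > 0` which is not an integer, and let `κ ≠ 0`, `B`, `T`, `W`, `U`, `a` and
`ε > 0` be fixed. Let `N` be large, `Q = N ^ (1 - ε)`, let `x₀` be such that `f n ≤ N` for the integers `1 ≤ n ≤ x₀` and
`N ≤ f x₀ log ^ a N`, and let `|c₀| ≤ B N`. Let at most `(log N) ^ T` systems of coefficients `λ_l(d)` with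
`|λ_l(d)| ≤ (τ(d) log N) ^ T`, where `τ(d)` is the number of the divisors of `d` (for instance `|λ_l(d)| ≤ 3 ^ ν(d)`, if
`T = 2`), and arbitrary functions `x_l(d) ≤ B N` of the modulus be given. Then all the integers `1 ≤ n ≤ x₀`, with at most
`x₀ / log ^ U N` exceptions, have the following property: ALL the residues `r > 0` at a distance of at most `(log N) ^ W` from
`c₀ + κ ⌊f n⌋` satisfy for all `l`: the sum of `λ_l(d) E(x_l(d); d, r)` over the `d ≤ Q` coprime to `r` is at most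
`N / (log N) ^ U` in absolute value, and so is the sum of `λ_l(d) E(y; d, r)` for all `y ≤ B N`.

**(2)** Part (1) applies to all the functions `f t = ∑ a z t ^ z.1 (log t) ^ z.2` (finite sums) with a leading term `z₀`
whose coefficient is positive and whose exponent `c = z₀.1` is positive and not an integer; for example to `n ^ c`. -/
theorem result :
    (∀ (c : ℝ) (f : ℝ → ℝ), 0 < c → (∀ m : ℕ, c ≠ m) → SmoothlyVarying c f →
      ∀ (κ : ℤ), κ ≠ 0 → ∀ (B T W U a : ℕ) (ε : ℝ), 0 < ε → ∃ N₀ : ℕ, ∀ N : ℕ, N₀ ≤ N → ∀ x₀ : ℕ,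
      (∀ n ∈ Icc 1 x₀, f n ≤ N) → (N : ℝ) ≤ Real.log N ^ a * f x₀ → ∀ c₀ : ℤ, |c₀| ≤ B * N →
      ∀ L : ℕ, (L : ℝ) ≤ Real.log N ^ T → ∀ lam : Fin L → ℕ → ℝ, (∀ l d, |lam l d| ≤ (Real.log N * d.divisors.card) ^ T) →
      ∀ x : Fin L → ℕ → ℕ, (∀ l d, x l d ≤ B * N) →
        (((Icc 1 x₀).filter fun n : ℕ => ¬ ∀ r : ℤ, ((|r - (c₀ + κ * (⌊f n⌋₊ : ℕ))| : ℤ) : ℝ) ≤ Real.log N ^ W →
          0 < r → ∀ l, Level B U N ε (lam l) (x l) r.toNat).card : ℝ) ≤ x₀ / Real.log N ^ U) ∧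
    (∀ (F : Finset (ℝ × ℝ)) (a : ℝ × ℝ → ℝ) (z₀ : ℝ × ℝ), z₀ ∈ F → 0 < a z₀ →
      (∀ z ∈ F, z ≠ z₀ → z.1 < z₀.1 ∨ z.1 = z₀.1 ∧ z.2 < z₀.2) →
      SmoothlyVarying z₀.1 (fun t => ∑ z ∈ F, a z * t ^ z.1 * Real.log t ^ z.2)) := by
  refine ⟨fun c f hc hn hf κ hκ B T W U a ε hε => ?_, fun F a z₀ h1 h2 h3 => gp_sv F a z₀ h1 h2 h3⟩
  have hsv := sv_of c hc hn f hf
  -- we may assume that `ε ≤ 1`
  obtain ⟨ε', hε'⟩ : ∃ ε' : ℝ, ε' = min ε 1 := ⟨_, rfl⟩
  have hε'0 : 0 < ε' := by rw [hε']; exact lt_min hε one_pos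
  have hε'1 : ε' ≤ 1 := by rw [hε']; exact min_le_right _ _
  have hε'2 : ε' ≤ ε := by rw [hε']; exact min_le_left _ _
  obtain ⟨k₀, h0⟩ := Pool.Agent.N213.GF.cls_heavy_near (hsv.clsV (a + 1) κ hκ).toCls B T W (U + 1) ε' hε'0
  refine ⟨2 ^ k₀ + 4, fun N hN x₀ hup hlow c₀ hc₀ L hL lam hlam x hx => ?_⟩
  rcases Nat.eq_zero_or_pos x₀ with rfl | hx0
  · simp
  have hk2 : 0 < 2 ^ k₀ := by positivity
  have hN4 : 4 ≤ N := by omega
  have hNk : N ≤ 2 ^ dg N := (lt_dg N).le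
  have hN0 : (0 : ℝ) < N := by exact_mod_cast (by omega : 0 < N)
  have hN1 : (1 : ℝ) ≤ N := by exact_mod_cast (by omega : 1 ≤ N)
  have hL1 := log_pos4 N hN4
  have hLk := log_le_dg N (by omega)
  have hL0 : 0 < Real.log N := by linarith
  obtain ⟨hval, hsize⟩ := conv (fun m => iteratedDeriv m f) a N x₀ hN4
    (by simpa only [iteratedDeriv_zero] using hup) (by simpa only [iteratedDeriv_zero] using hlow)
  have hQQ : ⌊(N : ℝ) ^ (1 - ε)⌋₊ ≤ ⌊((2 ^ dg N : ℕ) : ℝ) ^ (1 - ε')⌋₊ := by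
    apply Nat.floor_le_floor
    have hNkr : (N : ℝ) ≤ ((2 ^ dg N : ℕ) : ℝ) := by exact_mod_cast hNk
    calc (N : ℝ) ^ (1 - ε) ≤ (N : ℝ) ^ (1 - ε') := Real.rpow_le_rpow_of_exponent_le hN1 (by linarith)
      _ ≤ ((2 ^ dg N : ℕ) : ℝ) ^ (1 - ε') := Real.rpow_le_rpow hN0.le hNkr (by linarith)
  obtain ⟨Q, hQ⟩ : ∃ Q : ℕ, Q = ⌊(N : ℝ) ^ (1 - ε)⌋₊ := ⟨_, rfl⟩
  obtain ⟨lam', hlam'⟩ : ∃ lam' : Fin L → ℕ → ℝ, lam' = fun l d => if d ≤ Q then lam l d else 0 := ⟨_, rfl⟩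
  have hτ : ∀ d : ℕ, (0 : ℝ) ≤ (d.divisors.card : ℝ) := fun d => Nat.cast_nonneg _
  have hlamb : ∀ l q, |lam' l q| ≤ (dg N : ℝ) ^ T * (q.divisors.card : ℝ) ^ T := by
    intro l q
    rw [hlam', ← mul_pow]
    simp only
    split_ifs
    · refine (hlam l q).trans ?_
      apply pow_le_pow_left₀ (mul_nonneg hL0.le (hτ q))
      exact mul_le_mul_of_nonneg_right hLk (hτ q)
    · rw [abs_zero]
      exact pow_nonneg (mul_nonneg (Nat.cast_nonneg _) (hτ q)) _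
  obtain ⟨Qp, hQp⟩ : ∃ Qp : ℕ → Prop, Qp = fun v => (∀ y : ℤ, |y - (c₀ + κ * (v : ℕ))| ≤ ((dg N : ℕ) : ℤ) ^ W → 0 < y →
      ∀ l, Pool.Agent.N213.GF.Heavy 2 B (U + 1) (dg N) ε' (lam' l) (x l) y.toNat) := ⟨_, rfl⟩
  have hBN : B * N ≤ B * 2 ^ dg N := Nat.mul_le_mul_left _ hNk
  have key := count_of (a + 1) (dg N) x₀ hx0 hval hsize Qp (1 / (dg N : ℝ) ^ (U + 1))
    (fun p hp => by
      rw [hQp]
      exact h0 (dg N) (dg_large k₀ N (by omega)) p hp c₀ (by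
        refine hc₀.trans (mul_le_mul_of_nonneg_left ?_ (Nat.cast_nonneg _))
        exact_mod_cast hNk) L (hL.trans (pow_le_pow_left₀ hL0.le hLk T)) lam' hlamb x (fun l q => (hx l q).trans hBN))
  refine le_trans ?_ (key.trans (scale_x N U x₀ hN4))
  apply Nat.cast_le.2
  apply card_le_card
  intro n hn'
  rw [mem_filter] at hn' ⊢
  refine ⟨hn'.1, fun hcon => hn'.2 ?_⟩
  intro r hr hr0 l
  rw [hQp, val_iter] at hcon
  have hr' : |r - (c₀ + κ * (⌊f n⌋₊ : ℕ))| ≤ ((dg N : ℕ) : ℤ) ^ W := by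
    have h3 : ((|r - (c₀ + κ * (⌊f n⌋₊ : ℕ))| : ℤ) : ℝ) ≤ ((((dg N : ℕ) : ℤ) ^ W : ℤ) : ℝ) := by
      refine hr.trans ?_
      push_cast
      exact pow_le_pow_left₀ hL0.le hLk W
    exact_mod_cast h3
  obtain ⟨g1, g2⟩ := hcon r hr' hr0 l
  have hsc := scale N U hN4
  refine ⟨fun y hy => ?_, ?_⟩
  · rw [weighted_cut (lam l) (fun _ => y) _ _ r.toNat hQQ, ← hQ]
    refine le_trans (le_of_eq ?_) ((g1 y (hy.trans hBN)).trans hsc)
    rw [hlam']
  · rw [weighted_cut (lam l) (x l) _ _ r.toNat hQQ, ← hQ]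
    refine le_trans (le_of_eq ?_) (g2.trans hsc)
    rw [hlam']

end Pool.Agent.Results.MP_188a10_nt.NonIntegralOrderResidues
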