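import Pool.Agent.N213.GF.G
import Pool.Agent.N213.GF.I

/-!
# Weighted level of distribution beyond one half for random residues with a random field of digits

Divisor-bounded weights, heights which depend on the moduli, all the residues near a random integer whose digits form a
Markov random field on an arbitrary graph of positions of bounded degree.

Method: exponential sums over the integers whose digits form a Markov random field: averages over separated neighbourhoods
in the graph of positions. From the starting files: the passage from such exponential sums to the level of distribution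
(`Pool.Agent.TH872`), in a generic form: `Pool.Agent.N625.DY` (helper625); and from bounded to divisor-bounded weights
(`Pool.Agent.TH872.GQ.Dual`).

Examples of random fields, proved in `Pool.Agent.N213.GF.E` and `Pool.Agent.N213.GF.F`: the uniform distribution on the
solutions of local constraints with flexible digits on a graph of positions with degrees at most `Δ`, with `η = 1 / b ^ (Δ + 1)`
(`unif_field`); in particular the integers whose nonzero digits form an independent set of the graph (`indep_local`), and,
for `b ≥ Δ + 2`, the integers whose digits are a proper colouring of the graph (`colour_local`).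
-/

set_option autoImplicit false

namespace Pool.Agent.Results.MP_188a10_nt.RandomFieldResidues

open Finset

/-- The digit of `v` at the position `i` in base `b` (the position `0` is the least significant one). -/
def dig (b v i : ℕ) : ℕ := v / b ^ i % b

/-- The integer which has the digits of `v` at the positions in `S` and the digits of `w` at the other positions below `k`. -/
def splice (b k : ℕ) (S : Finset ℕ) (v w : ℕ) : ℕ := ∑ i ∈ range k, (if i ∈ S then dig b v i else dig b w i) * b ^ i

/-- `v` and `w` have the same digits outside the set `S` of positions. -/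
def Off (b : ℕ) (S : Finset ℕ) (v w : ℕ) : Prop := ∀ i, i ∉ S → dig b v i = dig b w i

open Classical in
/-- The closed neighbourhood of the position `i` in the graph `A` on the positions `0, …, k - 1`. -/
noncomputable def nb (k : ℕ) (A : ℕ → ℕ → Prop) (i : ℕ) : Finset ℕ := (range k).filter fun j => j = i ∨ A i j

open Classical in
/-- The total weight of the integers below `b ^ k` which have the same digits as `v` outside `S`. -/
noncomputable def mass (b k : ℕ) (p : ℕ → ℝ) (S : Finset ℕ) (v : ℕ) : ℝ :=
  ∑ w ∈ (range (b ^ k)).filter (fun w => Off b S w v), p w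

/-- The digits of a random integer `v < b ^ k` (with the probabilities `p v`) form a Markov random field on a graph `A` of
positions with degrees at most `Δ` (the Markov property: for every set `S` of positions and all `v`, `w` which have the same
digits at the positions outside `S` adjacent to `S`, the product `p v * p w` does not change if `v` and `w` exchange their
digits in `S`), and each digit is flexible: for every `v` with `p v ≠ 0` and every position `i`, there are `x` and `y` which
have the same digits as `v` outside the closed neighbourhood of `i`, which differ from each other exactly at the position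
`i`, and whose conditional probabilities, given the digits outside this neighbourhood, are at least `η`. -/
structure Field (b k Δ : ℕ) (η : ℝ) (A : ℕ → ℕ → Prop) (p : ℕ → ℝ) : Prop where
  symm : ∀ i j, A i j → A j i
  degree : ∀ i < k, (nb k A i).card ≤ Δ + 1
  nonneg : ∀ v, 0 ≤ p v
  sum : ∑ v ∈ range (b ^ k), p v = 1
  markov : ∀ S : Finset ℕ, ∀ v < b ^ k, ∀ w < b ^ k, (∀ i ∈ S, ∀ j < k, j ∉ S → A i j → dig b v j = dig b w j) →
    p v * p w = p (splice b k S v w) * p (splice b k S w v)
  flexible : ∀ v < b ^ k, p v ≠ 0 → ∀ i < k, ∃ x < b ^ k, ∃ y < b ^ k, Off b (nb k A i) x v ∧ Off b {i} y x ∧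
    dig b y i ≠ dig b x i ∧ η * mass b k p (nb k A i) v ≤ p x ∧ η * mass b k p (nb k A i) v ≤ p y

/-- `E(x; d, a) = ψ(x; d, a) - x / φ(d)`, where `ψ(x; d, a)` is the sum of `Λ(n)` over the `n ≤ x` with
`n ≡ a (mod d)`. -/
noncomputable def E (x d a : ℕ) : ℝ :=
  ∑ n ∈ (Icc 1 x).filter (fun n => n ≡ a [MOD d]), ArithmeticFunction.vonMangoldt n - (x : ℝ) / Nat.totient d

/-- The sum of `λ(d) E(x(d); d, a)` over the `d ≤ Q` coprime to `a`. -/
noncomputable def weighted (lam : ℕ → ℝ) (x : ℕ → ℕ) (Q a : ℕ) : ℝ :=
  ∑ d ∈ (Icc 1 Q).filter (fun d => a.Coprime d), lam d * E (x d) d a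

/-- With `N = b ^ k` and `Q = N ^ (1 - ε)`: the sum of `λ(d) E(y; d, a)` over the `d ≤ Q` coprime to `a` is at most `N / k ^ U`
in absolute value for all `y ≤ B N`, and so is the sum of `λ(d) E(x(d); d, a)`. -/
def Level (b B U k : ℕ) (ε : ℝ) (lam : ℕ → ℝ) (x : ℕ → ℕ) (a : ℕ) : Prop :=
  (∀ y ≤ B * b ^ k, |weighted lam (fun _ => y) ⌊((b ^ k : ℕ) : ℝ) ^ (1 - ε)⌋₊ a| ≤ ((b ^ k : ℕ) : ℝ) / (k : ℝ) ^ U) ∧
  |weighted lam x ⌊((b ^ k : ℕ) : ℝ) ^ (1 - ε)⌋₊ a| ≤ ((b ^ k : ℕ) : ℝ) / (k : ℝ) ^ U

lemma field_conv {b k Δ : ℕ} {η : ℝ} {A : ℕ → ℕ → Prop} {p : ℕ → ℝ} (h : Field b k Δ η A p) :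
    Pool.Agent.N213.GF.Field b k Δ η A p :=
  ⟨h.symm, h.degree, h.nonneg, h.sum, h.markov, h.flexible⟩

open Classical in
/-- Let `b ≥ 2`, `Δ`, `η > 0`, `κ ≠ 0`, `B`, `T`, `W`, `U` and `ε > 0` be fixed, let `k` be large, `N = b ^ k`,
`Q = N ^ (1 - ε)`, and let `c` be an arbitrary integer with `|c| ≤ B N`. Let at most `k ^ T` systems of coefficients
`λ_l(d)` with `|λ_l(d)| ≤ (k τ(d)) ^ T`, where `τ(d)` is the number of the divisors of `d` (for instance
`|λ_l(d)| ≤ 3 ^ ν(d)`, if `T = 2`), and arbitrary functions `x_l(d) ≤ B N` of the modulus be given. Let `v < N` be a random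
integer whose digits form a Markov random field with flexible digits on an arbitrary graph of positions with degrees at most
`Δ`. Then, with probability at least `1 - 1 / k ^ U`, ALL the residues `a > 0` at a distance of at most `k ^ W` from
`c + κ v` satisfy for all `l`: the sum of `λ_l(d) E(x_l(d); d, a)` over the `d ≤ Q` coprime to `a` is at most `N / k ^ U` in
absolute value, and so is the sum of `λ_l(d) E(y; d, a)` for all `y ≤ B N`. -/
theorem result (b Δ : ℕ) (hb : 2 ≤ b) (η : ℝ) (hη : 0 < η) (κ : ℤ) (hκ : κ ≠ 0) (B T W U : ℕ) (ε : ℝ) (hε : 0 < ε) :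
    ∃ k₀ : ℕ, ∀ k : ℕ, k₀ ≤ k → ∀ c : ℤ, |c| ≤ B * (b : ℤ) ^ k → ∀ L : ℕ, (L : ℝ) ≤ (k : ℝ) ^ T →
      ∀ lam : Fin L → ℕ → ℝ, (∀ l d, |lam l d| ≤ ((k : ℝ) * d.divisors.card) ^ T) →
      ∀ x : Fin L → ℕ → ℕ, (∀ l d, x l d ≤ B * b ^ k) →
      ∀ (A : ℕ → ℕ → Prop) (p : ℕ → ℝ), Field b k Δ η A p →
        ∑ v ∈ range (b ^ k), (if (∀ a : ℤ, |a - (c + κ * (v : ℕ))| ≤ (k : ℤ) ^ W → 0 < a →
          ∀ l, Level b B U k ε (lam l) (x l) a.toNat) then 0 else p v) ≤ 1 / (k : ℝ) ^ U := by
  obtain ⟨k1, h1⟩ := Pool.Agent.N213.GF.cls_heavy_near (Pool.Agent.N213.GF.gf_cls b Δ η hb hη κ hκ) B T W U ε hε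
  refine ⟨k1, fun k hk c hc L hL lam hlam x hx A p hp => ?_⟩
  refine le_trans (le_of_eq ?_) (h1 k hk p ⟨A, field_conv hp⟩ c hc L hL lam (fun l q => by rw [← mul_pow]; exact hlam l q) x hx)
  apply sum_congr rfl
  intro v _
  congr

end Pool.Agent.Results.MP_188a10_nt.RandomFieldResidues
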