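import Pool.Agent.N469.TL.Levels

/-!
# Weighted level of distribution, almost the full range, for almost all smooth residues

From Mathlib: `ArithmeticFunction.vonMangoldt`: the function `Λ`; `Nat.totient`: Euler's function.

The proof combines an elementary bound for the exponential sum over the integers composed of primes from a given set
(`Pool.Agent.N469.SQ.exp_alt`: it is large only near few rational numbers with small denominators) with the dispersion
argument of the starting files (`Pool.Agent.Y885.tl_levels`).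
-/

set_option autoImplicit false

namespace Pool.Agent.Results.MP_188a10_nt.SmoothResidues

open Finset

/-- `E(x; m, a) = ψ(x; m, a) - x / φ(m)`, where `ψ(x; m, a)` is the sum of `Λ(n)` over the `n ≤ x` with
`n ≡ a (mod m)`. -/
noncomputable def E (x m a : ℕ) : ℝ :=
  ∑ n ∈ (Icc 1 x).filter (fun n : ℕ => n ≡ a [MOD m]), ArithmeticFunction.vonMangoldt n - (x : ℝ) / Nat.totient m

/-- `τ(m)`: the number of the divisors of `m`. In particular `τ(m) ^ 2 ≥ 3 ^ ν(m)`, where `ν(m)` is the number of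
the prime factors of `m`. -/
noncomputable def τ (m : ℕ) : ℝ := m.divisors.card

/-- The sum of `λ(m) E(x(m); m, a)` over the `m ≤ Q` coprime to `a`. -/
noncomputable def weighted (lam : ℕ → ℝ) (x : ℕ → ℕ) (Q a : ℕ) : ℝ :=
  ∑ m ∈ (Icc 1 Q).filter (fun m : ℕ => a.Coprime m), lam m * E (x m) m a

/-- For each of the `R` systems of coefficients `λ_l(m)` and heights `x_l(m)` the weighted sums with the heights `x_l(m)`,
and also those with any common height `x ≤ X`, are at most `ε` in absolute value. -/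
def Level (lam : ℕ → ℕ → ℝ) (x : ℕ → ℕ → ℕ) (R Q X : ℕ) (ε : ℝ) (a : ℕ) : Prop :=
  ∀ l < R, (∀ x' ≤ X, |weighted (lam l) (fun _ => x') Q a| ≤ ε) ∧ |weighted (lam l) (x l) Q a| ≤ ε

/-- The integers `1 ≤ v ≤ N` all of whose prime factors belong to `P`. -/
def composedOf (P : Finset ℕ) (N : ℕ) : Finset ℕ := (Icc 1 N).filter fun v => v.primeFactors ⊆ P

/-- The `y`-smooth integers `1 ≤ v ≤ N`: the integers all of whose prime factors are at most `y`. -/
def smooth (y N : ℕ) : Finset ℕ := (Icc 1 N).filter fun v => ∀ p ∈ v.primeFactors, p ≤ y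

open Classical in
/-- Let `A`, `T`, `U`, `W`, `K`, `B`, the integer `κ ≠ 0` and `δ > 0` be fixed. Then there is a constant `D` with the following
property. Let `N` be large, `1 ≤ y ≤ log ^ K N`, let `c` be an arbitrary integer with `|c| ≤ B N`, let `X` be an integer with
`(B + |κ| + 1) N ≤ X ≤ N log ^ W X`, and let `Q ≤ X / exp (D (log log N) ^ 2)`; thus `Q = X ^ (1 - o(1))`. Let at most `log ^ T N`
systems of arbitrary coefficients `λ_l(m)` with `|λ_l(m)| ≤ (τ(m) log N) ^ T` (for example `|λ_l(m)| ≤ 3 ^ ν(m)`, if `T = 2`) and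
arbitrary heights `x_l(m) ≤ X` be given.

(1) Let `P` be an arbitrary set of primes which are at most `y`, with at least `y ^ (1 / 2 + δ) log N` elements. Then
for all the integers `v ≤ N` composed of primes from `P`, up to a proportion of at most `1 / log ^ U N` of them, ALL the
positive integers `a` with `|a - (c + κ v)| ≤ log ^ A N` have the following property: for all `l`, the sum of
`λ_l(m) E(x_l(m); m, a)` over the `m ≤ Q` coprime to `a`, and all the sums of `λ_l(m) E(x; m, a)`, `x ≤ X`, are at most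
`X / log ^ U N` in absolute value. (There can be as few as about `N ^ (1 / 2 + δ)` such integers `v`.)

(2) In particular this holds for all the `y`-smooth integers `v ≤ N`, up to a proportion of at most `1 / log ^ U N` of them,
if `y ≥ log ^ (2 + δ) N`. -/
theorem result (A T U W K B : ℕ) (κ : ℤ) (hκ : κ ≠ 0) (δ : ℝ) (hδ : 0 < δ) :
    ∃ D N₀ : ℕ, ∀ N, N₀ ≤ N → ∀ y : ℕ, 1 ≤ y → (y : ℝ) ≤ Real.log N ^ K → ∀ c : ℤ, |c| ≤ B * N →
      ∀ X : ℕ, (B + κ.natAbs + 1) * N ≤ X → (X : ℝ) ≤ N * Real.log X ^ W →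
      ∀ Q : ℕ, (Q : ℝ) * Real.exp (D * Real.log (Real.log N) ^ 2) ≤ X →
      ∀ R : ℕ, (R : ℝ) ≤ Real.log N ^ T → ∀ lam : ℕ → ℕ → ℝ, (∀ l m, |lam l m| ≤ (τ m * Real.log N) ^ T) →
      ∀ x : ℕ → ℕ → ℕ, (∀ l m, x l m ≤ X) →
      (∀ P : Finset ℕ, (∀ p ∈ P, p.Prime ∧ p ≤ y) → (y : ℝ) ^ (1 / 2 + δ) * Real.log N ≤ P.card →
        (((composedOf P N).filter fun v : ℕ => ∃ a : ℕ, 0 < a ∧ |((a - (c + κ * v) : ℤ) : ℝ)| ≤ Real.log N ^ A ∧
          ¬ Level lam x R Q X (X / Real.log N ^ U) a).card : ℝ) ≤ ((composedOf P N).card : ℝ) / Real.log N ^ U) ∧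
      (Real.log N ^ (2 + δ) ≤ y →
        (((smooth y N).filter fun v : ℕ => ∃ a : ℕ, 0 < a ∧ |((a - (c + κ * v) : ℤ) : ℝ)| ≤ Real.log N ^ A ∧
          ¬ Level lam x R Q X (X / Real.log N ^ U) a).card : ℝ) ≤ ((smooth y N).card : ℝ) / Real.log N ^ U) := by
  obtain ⟨D, N₀, h0⟩ := Pool.Agent.N469.TL.bothD δ hδ K U
    (fun D N E => ∃ (cc : ℤ) (X Q R : ℕ) (lam : ℕ → ℕ → ℝ) (x : ℕ → ℕ → ℕ), |cc| ≤ B * N ∧ (B + κ.natAbs + 1) * N ≤ X ∧
      (X : ℝ) ≤ N * Real.log X ^ W ∧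
      (Q : ℝ) * Real.exp (D * Real.log (Real.log N) ^ 2) ≤ X ∧ (R : ℝ) ≤ Real.log N ^ T ∧
      (∀ l m, |lam l m| ≤ (m.divisors.card * Real.log N) ^ T) ∧ (∀ l m, x l m ≤ X) ∧
      ∀ v, E v → ∃ r : ℤ, |(r : ℝ)| ≤ Real.log N ^ A ∧ 0 < cc + κ * (v : ℤ) + r ∧ ∃ l < R,
        (∃ x' ≤ X, (X : ℝ) / Real.log N ^ U < |Pool.Agent.TH212.EH.W (lam l) Q x' (cc + κ * (v : ℤ) + r).toNat|) ∨
        (X : ℝ) / Real.log N ^ U < |Pool.Agent.TH212.EH.WW (lam l) (x l) Q (cc + κ * (v : ℤ) + r).toNat|)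
    (fun D D' hDD N E ⟨cc, X, Q, R, lam, x, g1, g2, g3, g4, g5, g6, g7, g8⟩ => ⟨cc, X, Q, R, lam, x, g1, g2, g3, by
      refine le_trans ?_ g4
      apply mul_le_mul_of_nonneg_left _ (Nat.cast_nonneg _)
      apply Real.exp_le_exp.2
      apply mul_le_mul_of_nonneg_right _ (sq_nonneg _)
      exact_mod_cast hDD, g5, g6, g7, g8⟩)
    (Pool.Agent.N469.TL.sm_levels κ hκ K B A T U W)
  refine ⟨D, N₀, fun N hN y hy hy' c hc X hX1 hX2 Q hQ R hR lam hlam x hx => ?_⟩
  refine h0 N hN y hy hy' (fun v : ℕ => ∃ a : ℕ, 0 < a ∧ |((a - (c + κ * v) : ℤ) : ℝ)| ≤ Real.log N ^ A ∧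
          ¬ Level lam x R Q X (X / Real.log N ^ U) a) (fun v => inferInstance)
    ⟨c, X, Q, R, lam, x, hc, hX1, hX2, hQ, hR, hlam, hx, fun v hv => ?_⟩
  obtain ⟨a, ha0, ha, hbad⟩ := hv
  have e0 : c + κ * (v : ℤ) + ((a : ℤ) - (c + κ * v)) = a := by ring
  refine ⟨(a : ℤ) - (c + κ * v), ha, by rw [e0]; exact_mod_cast ha0, ?_⟩
  rw [e0, Int.toNat_natCast]
  by_contra hcon
  push Not at hcon
  apply hbad
  intro l hl
  have h1 := hcon l hl
  exact ⟨fun x' hx' => h1.1 x' hx', h1.2⟩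

end Pool.Agent.Results.MP_188a10_nt.SmoothResidues
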