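import Pool.Agent.N900.WS.Few

/-!
# The weighted sum of the problem for separated residue systems, at every level below `N / (log N)^B`

The maximum over the reduced residues `l` in `E(N, d)` is the supremum over all residue systems `c` (a class
`c(d)` prime to `d` for every modulus `d`). We bound the weighted sum
`∑_{d ≤ Q} κ^ν(d) max_{2 ≤ y ≤ N} |π(y; d, c(d)) - li(y)/φ(d)|` by `N / (log N)^U` for all but at most
`(Q² / N) (log N)^B` members `c` of every family of residue systems any two of which coincide modulo few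
`d ≤ Q`, for all `Q ≤ N / (log N)^B`: in particular for all but at most `N^(2α-1) (log N)^B` members if
`Q = N^α`, `α < 1`. The weights `κ^ν(d)` (the problem has `κ = 3`), the maximum over all real heights `y`
and the main term `li(y)/φ(d)` are those of the problem. This applies to the systems `d ↦ a u(d) + v(d)`,
`a ≤ N^D`, with arbitrary fixed `u`, `v`, `u(d)` prime to `d`: e.g. to the translates and to the multiples
of a system at which the maxima `E(N, d)` are attained.

Proof: the unweighted theorem at a single height (`Pool.Agent.Y882.EHF`, starting files) is applied at the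
heights of a grid with a power of `log N` points; passage to all heights and to the weights as in
`Pool.Agent.H300R2.WEH` (starting files).
-/

set_option autoImplicit false

namespace Pool.Agent.Results.MP_188a10_nt.WeightedSeparatedSystems

open Finset

/-- `π(y; d, a)`: the number of primes `p ≤ y` with `p ≡ a (mod d)` -/
noncomputable def primesAP (y : ℝ) (d a : ℕ) : ℕ :=
  ((Icc 1 ⌊y⌋₊).filter (fun p => p.Prime ∧ p ≡ a [MOD d])).card

/-- `li(y) = ∫_2^y dt / log t` -/
noncomputable def li (y : ℝ) : ℝ := ∫ t in (2 : ℝ)..y, 1 / Real.log t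

/-- the maximum over real `y`, `2 ≤ y ≤ N`, of `|π(y; d, a) - li(y)/φ(d)|` -/
noncomputable def EMax (N d a : ℕ) : ℝ :=
  ⨆ y : Set.Icc (2 : ℝ) N, |(primesAP y d a : ℝ) - li y / (Nat.totient d : ℝ)|

/-- The sum of `κ^ν(d) EMax N d (c d)` over the moduli `1 ≤ d ≤ Q` for which `c(d)` is prime to `d`;
`ν(d)` is the number of distinct prime factors of `d`. -/
noncomputable def total (κ : ℝ) (N Q : ℕ) (c : ℕ → ℕ) : ℝ :=
  ∑ d ∈ (Icc 1 Q).filter (fun d => (c d).Coprime d), κ ^ d.primeFactors.card * EMax N d (c d)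

/-- The number of the moduli `1 ≤ d ≤ Q` with `c(d) ≡ c'(d) (mod d)`. -/
def coincidences (c c' : ℕ → ℕ) (Q : ℕ) : ℕ := ((Icc 1 Q).filter (fun d => c d ≡ c' d [MOD d])).card

theorem result (κ : ℝ) (hκ : 1 ≤ κ) (U : ℕ) :
    (∃ B N₀ : ℕ, ∀ N : ℕ, N₀ ≤ N → ∀ Q : ℕ, (Q : ℝ) * Real.log N ^ B ≤ N →
      ∀ (ι : Type) (I : Finset ι) (c : ι → ℕ → ℕ),
        (∀ i ∈ I, ∀ j ∈ I, i ≠ j → (coincidences (c i) (c j) Q : ℝ) * (Q * Real.log N ^ B) ≤ N) →
        (∀ i ∈ I, N / Real.log N ^ U < total κ N Q (c i)) →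
        (I.card : ℝ) ≤ (Q : ℝ) ^ 2 / N * Real.log N ^ B) ∧
    (∀ ε D : ℝ, 0 < ε → 0 ≤ D → ∃ B N₀ : ℕ, ∀ N : ℕ, N₀ ≤ N → ∀ Q : ℕ, (Q : ℝ) ≤ (N : ℝ) ^ (1 - ε) →
      ∀ u v : ℕ → ℕ, (∀ d, 1 ≤ d → (u d).Coprime d) →
      ∀ A : Finset ℕ, (∀ a ∈ A, (a : ℝ) ≤ (N : ℝ) ^ D ∧
        N / Real.log N ^ U < total κ N Q (fun d => a * u d + v d)) →
        (A.card : ℝ) ≤ (Q : ℝ) ^ 2 / N * Real.log N ^ B) :=
  ⟨Pool.Agent.N900.WS.fewW κ hκ U, fun ε D hε hD => Pool.Agent.N900.WS.fewW_affine κ hκ U ε D hε hD⟩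

end Pool.Agent.Results.MP_188a10_nt.WeightedSeparatedSystems
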